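import Pool.Agent.helper83.SB.Spec

/-! Project sb (bridge), row MXM: the mixed area measure. -/

set_option autoImplicit false

open scoped Pointwise ContDiff
open MeasureTheory Set Filter Topology

namespace Pool.Agent.helper83.SB

open Pool.Agent.helper83.SC

theorem MXM_sgn {m : ℕ} (x : Finset (Fin m) → ℝ) :
    ∑ I : Finset (Fin m), (-1 : ℝ) ^ (m - I.card) * x I
      = ∑ I ∈ Finset.univ.filter (fun I : Finset (Fin m) => Even (m - I.card)), x I
        - ∑ I ∈ Finset.univ.filter (fun I : Finset (Fin m) => ¬ Even (m - I.card)), x I := by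
  rw [← Finset.sum_filter_add_sum_filter_not Finset.univ
    (fun I : Finset (Fin m) => Even (m - I.card)), sub_eq_add_neg, ← Finset.sum_neg_distrib]
  congr 1
  · refine Finset.sum_congr rfl fun I hI => ?_
    rw [Finset.mem_filter] at hI
    rw [hI.2.neg_one_pow, one_mul]
  · refine Finset.sum_congr rfl fun I hI => ?_
    rw [Finset.mem_filter] at hI
    have h : Odd (m - I.card) := Nat.not_even_iff_odd.mp hI.2
    rw [h.neg_one_pow]
    ring

theorem MXM_of (hSAM : SAM_stmt) (hMLS : MLS_stmt) (hLFT : LFT_stmt) (hB : B_nonneg_stmt)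
    (hsum : isBody_sum_stmt) (hCV : chart_CV_stmt) : MXM_stmt := by
  intro m C hC
  have hbody : ∀ I : Finset (Fin m), IsBody (∑ i ∈ I, C i) := fun I => (hsum I hC).1
  choose S hSph hLoc hlim using fun I : Finset (Fin m) => hSAM (hbody I)
  have hchart : ∀ (b : OrthonormalBasis (Fin (m + 1)) ℝ (E (m + 1))) (I : Finset (Fin m)),
      chart b (∑ i ∈ I, C i) = fun y => ∑ i ∈ I, chart b (C i) y := by
    intro b I
    funext y
    unfold chart
    exact (hsum I hC).2 _
  have hfinI : ∀ I, IsFiniteMeasure (S I) := fun I => (hSph I).1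
  set ev : Finset (Finset (Fin m)) :=
    Finset.univ.filter (fun I : Finset (Fin m) => Even (m - I.card)) with hev
  set od : Finset (Finset (Fin m)) :=
    Finset.univ.filter (fun I : Finset (Fin m) => ¬ Even (m - I.card)) with hod
  have hSphsum : ∀ s : Finset (Finset (Fin m)), Sph (∑ I ∈ s, S I) := by
    intro s
    refine ⟨?_, ?_⟩
    · infer_instance
    · rw [Measure.finsetSum_apply]
      exact Finset.sum_eq_zero fun I _ => (hSph I).2
  have hint : ∀ (b : OrthonormalBasis (Fin (m + 1)) ℝ (E (m + 1))) (φ : E m → ℝ), Test φ →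
      ∀ T : Measure (E (m + 1)), Sph T → Integrable (lift b φ) T :=
    fun b φ hφ T hT => (hLFT b hφ).2.2.2 T hT
  have hintsum : ∀ (b : OrthonormalBasis (Fin (m + 1)) ℝ (E (m + 1))) (φ : E m → ℝ), Test φ →
      ∀ s : Finset (Finset (Fin m)), ∫ v, lift b φ v ∂(∑ I ∈ s, S I)
        = ∑ I ∈ s, A φ (fun y => ∑ i ∈ I, chart b (C i) y) := by
    intro b φ hφ s
    rw [integral_finsetSum_measure (fun I _ => hint b φ hφ (S I) (hSph I))]
    refine Finset.sum_congr rfl fun I _ => ?_
    rw [hLoc I b φ hφ]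
    simp only [hchart]
  have hdiff : ∀ (b : OrthonormalBasis (Fin (m + 1)) ℝ (E (m + 1))) (φ : E m → ℝ), Test φ →
      ∫ v, lift b φ v ∂(∑ I ∈ ev, S I) - ∫ v, lift b φ v ∂(∑ I ∈ od, S I)
        = (m.factorial : ℝ) * B φ (fun j => chart b (C j)) := by
    intro b φ hφ
    rw [hintsum b φ hφ, hintsum b φ hφ, ← MXM_sgn]
    unfold B
    have : (m.factorial : ℝ) ≠ 0 := by exact_mod_cast m.factorial_ne_zero
    field_simp
  have hle : (∑ I ∈ od, S I) ≤ (∑ I ∈ ev, S I) := by
    refine hMLS (hSphsum od) (hSphsum ev) ?_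
    intro b φ hφ
    have h1 := hdiff b φ hφ
    have h2 : 0 ≤ (m.factorial : ℝ) * B φ (fun j => chart b (C j)) :=
      mul_nonneg (by positivity) (hB hφ fun j => hCV b (hC j))
    linarith
  set P : Measure (E (m + 1)) := ∑ I ∈ ev, S I with hP
  set N : Measure (E (m + 1)) := ∑ I ∈ od, S I with hN
  have hPf : IsFiniteMeasure P := (hSphsum ev).1
  have hNf : IsFiniteMeasure N := (hSphsum od).1
  have hPN : P - N + N = P := Measure.sub_add_cancel_of_le hle
  have hDP : P - N ≤ P := Measure.sub_le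
  have hDf : IsFiniteMeasure (P - N) := by infer_instance
  have hD0 : (P - N) (Metric.sphere (0 : E (m + 1)) 1)ᶜ = 0 :=
    le_antisymm ((hDP _).trans (hSphsum ev).2.le) zero_le
  have hDS : Sph (P - N) := ⟨hDf, hD0⟩
  have hfact : (0 : ℝ) < m.factorial := by exact_mod_cast m.factorial_pos
  set c : NNReal := (m.factorial : NNReal)⁻¹ with hc
  have hcr : (c : ℝ) = (m.factorial : ℝ)⁻¹ := by rw [hc]; push_cast; rfl
  refine ⟨c • (P - N), ⟨?_, ?_⟩, ?_, ?_⟩
  · infer_instance
  · rw [Measure.smul_apply, hD0, smul_zero]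
  · intro b φ hφ
    rw [integral_smul_nnreal_measure]
    have h1 : ∫ v, lift b φ v ∂(P - N) + ∫ v, lift b φ v ∂N = ∫ v, lift b φ v ∂P := by
      rw [← integral_add_measure (hint b φ hφ _ hDS) (hint b φ hφ _ (hSphsum od)), hPN]
    have h2 := hdiff b φ hφ
    have h3 : ∫ v, lift b φ v ∂(P - N) = (m.factorial : ℝ) * B φ (fun j => chart b (C j)) := by
      linarith
    rw [h3, NNReal.smul_def, hcr, smul_eq_mul]
    field_simp
  · intro U hU
    have h1 : Tendsto (fun ε : ℝ => ∑ I : Finset (Fin m), (-1 : ℝ) ^ (m - I.card) *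
        ((rho (∑ i ∈ I, C i) ε U).toReal / ε)) (𝓝[>] 0)
        (𝓝 (∑ I : Finset (Fin m), (-1 : ℝ) ^ (m - I.card) * (S I U).toReal)) := by
      refine tendsto_finsetSum _ fun I _ => ?_
      exact (hlim I U hU).const_mul _
    have h2 : ∑ I : Finset (Fin m), (-1 : ℝ) ^ (m - I.card) * (S I U).toReal
        = (m.factorial : ℝ) * ((c • (P - N)) U).toReal := by
      rw [MXM_sgn]
      have e1 : ∀ s : Finset (Finset (Fin m)), ((∑ I ∈ s, S I) U).toReal
          = ∑ I ∈ s, (S I U).toReal := by
        intro s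
        rw [Measure.finsetSum_apply, ENNReal.toReal_sum]
        intro I _
        exact measure_ne_top _ _
      have e2 : (P U).toReal = ((P - N) U).toReal + (N U).toReal := by
        conv_lhs => rw [← hPN]
        rw [Measure.add_apply, ENNReal.toReal_add (measure_ne_top _ _) (measure_ne_top _ _)]
      have e3 : ((c • (P - N)) U).toReal = (m.factorial : ℝ)⁻¹ * ((P - N) U).toReal := by
        rw [Measure.smul_apply, ENNReal.smul_def, smul_eq_mul, ENNReal.toReal_mul,
          ENNReal.coe_toReal, hcr]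
      rw [e3, ← e1 ev, ← e1 od, ← hP, ← hN, e2]
      field_simp
      ring
    rw [h2] at h1
    exact h1

end Pool.Agent.helper83.SB
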