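import Pool.Agent.helper83.SB.Spec
import Pool.Agent.helper18.SC.UP

/-! Project sb (bridge), row UPP: the upper inclusion. -/

set_option autoImplicit false

open scoped Pointwise ContDiff
open MeasureTheory Set Filter Topology

namespace Pool.Agent.helper83.SB

open Pool.Agent.helper83.SC

theorem UPP_of (h1 : mem_extreme_chart_stmt) (h2 : core_upper_stmt)
    (h4 : chart_CV_stmt) (h5 : exists_basis_stmt) : UPP_stmt := by
  intro m C hC S hS hLoc u hu U hU huU hUE
  have hu1 : ‖u‖ = 1 := mem_sphere_zero_iff_norm.1 hu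
  obtain ⟨b, hb⟩ := h5 hu
  have := hS.1
  have hfin := UPν_finite b hS.2
  have hv0 : emb b 0 = u := by rw [UP_emb_zero, hb]
  have hcont : ContinuousAt (fun y => ‖emb b y‖⁻¹ • emb b y) 0 := by
    change ContinuousAt ((fun y => ‖emb b y‖⁻¹) • (fun y => emb b y)) 0
    apply ContinuousAt.smul
    · apply ContinuousAt.inv₀
      · exact (UP_emb_cont b).norm.continuousAt
      · exact (norm_pos_iff.2 (UP_emb_ne b 0)).ne'
    · exact (UP_emb_cont b).continuousAt
  have hmem : (fun y => ‖emb b y‖⁻¹ • emb b y) ⁻¹' U ∈ 𝓝 (0 : E m) := by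
    apply hcont
    apply hU.mem_nhds
    simp only
    rw [hv0, hu1, inv_one, one_smul]
    exact huU
  obtain ⟨r, hr, hball⟩ := Metric.mem_nhds_iff.1 hmem
  have hnull : UPν b S (Metric.ball (0 : E m) r) = 0 := by
    refine h2 (F := fun j => chart b (C j)) (fun j => h4 b (hC j)) (UPν b S) ?_ ?_
    · intro φ hφ
      rw [UP_integral b hφ]
      exact hLoc b φ hφ
    · intro y hy
      have hy' := hUE _ (hball hy)
      rw [h1 b hC y] at hy'
      push Not at hy'
      obtain ⟨I, W, hIW, hlt⟩ := hy'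
      exact ⟨I, W, hIW, by omega⟩
  unfold UPν at hnull
  rw [Measure.map_apply (UPπ_meas b) Metric.isOpen_ball.measurableSet,
    withDensity_apply_eq_zero (UPρ_meas b)] at hnull
  refine ⟨{v | 0 < (coord b v).2 ∧ ‖(coord b v).1‖ < r * (coord b v).2}, ?_, ?_, ?_⟩
  · apply IsOpen.and
    · exact isOpen_lt continuous_const (UP_coord2_cont b)
    · exact isOpen_lt (UP_coord1_cont b).norm (continuous_const.mul (UP_coord2_cont b))
  · rw [mem_ofPred_eq, ← hb]
    have e2 : (coord b (b (Fin.last m))).2 = 1 := by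
      unfold coord
      simp
    have e1 : (coord b (b (Fin.last m))).1 = 0 := by
      unfold coord
      ext i
      have h : i.castSucc ≠ Fin.last m := (Fin.castSucc_lt_last i).ne
      simp [h]
    rw [e1, e2, norm_zero, mul_one]
    exact ⟨one_pos, hr⟩
  · refine measure_mono_null ?_ hnull
    rintro v ⟨h1, h2⟩
    constructor
    · rw [mem_ofPred_eq]
      unfold UPρ
      exact (ENNReal.ofReal_pos.2 h1).ne'
    · rw [mem_preimage, mem_ball_zero_iff]
      unfold UPπ
      rw [norm_smul, norm_inv, Real.norm_eq_abs, abs_of_pos h1, inv_mul_lt_iff₀ h1, mul_comm]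
      exact h2

end Pool.Agent.helper83.SB
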